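import Pool.Agent.U515.KX.Hull

/-!
# Strongly base orderable matroids
-/

set_option autoImplicit false

namespace Pool.Agent.U515.KX

/-- `M` is strongly base orderable: for any two bases `A`, `B` there is a bijection `π : A → B`
such that `(A \ X) ∪ π(X)` is a base for every `X ⊆ A`. -/
def StronglyBaseOrderable {α : Type} (M : Matroid α) : Prop :=
  ∀ A B : Set α, M.IsBase A → M.IsBase B → ∃ π : α → α, Set.BijOn π A B ∧
    ∀ X ⊆ A, M.IsBase ((A \ X) ∪ π '' X)

/-- The bases, as finite sets. -/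
def bases {n : ℕ} (M : Matroid (Fin n)) : Set (Finset (Fin n)) := {A | M.IsBase (A : Set (Fin n))}

theorem sbo_exchangeable {n : ℕ} (M : Matroid (Fin n)) (hM : StronglyBaseOrderable M) :
    Exchangeable 2 (bases M) := by
  classical
  intro A hA B hB
  obtain ⟨π, hbij, hπ⟩ := hM A B hA hB
  have hfix : ∀ x, x ∈ A → x ∈ B → π x = x := by
    intro x hxA hxB
    obtain ⟨y, hyA, hyx⟩ := hbij.surjOn (Finset.mem_coe.2 hxB)
    by_cases h : y = x
    · rw [← h, hyx, h]
    · exfalso
      have h1 := hπ {y} (Set.singleton_subset_iff.2 hyA)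
      have h2 : ((A : Set (Fin n)) \ {y}) ∪ π '' {y} = (A : Set (Fin n)) \ {y} := by
        rw [Set.image_singleton, hyx]
        ext z
        simp only [Set.mem_union, Set.mem_sdiff, Set.mem_singleton_iff]
        constructor
        · rintro (h3 | rfl)
          · exact h3
          · exact ⟨Finset.mem_coe.2 hxA, fun h4 => h h4.symm⟩
        · exact Or.inl
      rw [h2] at h1
      have h3 := h1.eq_of_subset_isBase hA Set.sdiff_subset
      have h4 : y ∈ (A : Set (Fin n)) \ {y} := by rw [h3]; exact hyA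
      exact h4.2 rfl
  set ρ : Fin n → Fin n := fun x => if h : ∃ y, y ∈ A ∧ π y = x then h.choose else x with hρ
  have hρ1 : ∀ x, x ∈ B → ρ x ∈ A ∧ π (ρ x) = x := by
    intro x hx
    obtain ⟨y, hyA, hyx⟩ := hbij.surjOn (Finset.mem_coe.2 hx)
    have h : ∃ y, y ∈ A ∧ π y = x := ⟨y, Finset.mem_coe.1 hyA, hyx⟩
    simp only [hρ, dif_pos h]
    exact h.choose_spec
  refine ⟨fun x => if x ∈ A then x else ρ x, fun i => ?_, fun I => ?_⟩
  · refine (Finset.card_le_card (t := {i, π i}) ?_).trans Finset.card_le_two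
    intro x hx
    rw [Finset.mem_filter, Finset.mem_symmDiff] at hx
    obtain ⟨h1, h2⟩ := hx
    simp only at h2
    rcases h1 with ⟨hA1, _⟩ | ⟨hB1, hA1⟩
    · rw [if_pos hA1] at h2
      simp [h2]
    · rw [if_neg hA1] at h2
      have := (hρ1 x hB1).2
      rw [h2] at this
      simp [this]
  · have h := hπ {x | x ∈ A ∧ x ∉ B ∧ x ∈ I} (fun x hx => hx.1)
    have h2 : ((symmDiff A ((symmDiff A B).filter
        (fun x => (if x ∈ A then x else ρ x) ∈ I)) : Finset (Fin n)) : Set (Fin n)) =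
        ((A : Set (Fin n)) \ {x | x ∈ A ∧ x ∉ B ∧ x ∈ I}) ∪
          π '' {x | x ∈ A ∧ x ∉ B ∧ x ∈ I} := by
      ext y
      rw [Finset.mem_coe, Finset.mem_symmDiff, Finset.mem_filter, Finset.mem_symmDiff,
        Set.mem_union, Set.mem_sdiff, Finset.mem_coe, Set.mem_ofPred_eq, Set.mem_image]
      have hpi : ∀ x, x ∈ A → π x ∈ B := fun x hx => Finset.mem_coe.1 (hbij.mapsTo hx)
      by_cases hyA : y ∈ A <;> by_cases hyB : y ∈ B
      · simp [hyA, hyB]
      · have h3 : ¬ ∃ x, x ∈ {x | x ∈ A ∧ x ∉ B ∧ x ∈ I} ∧ π x = y := by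
          rintro ⟨x, hx, rfl⟩
          exact hyB (hpi x hx.1)
        rw [or_iff_left h3]
        simp [hyA, hyB]
      · have h3 := hρ1 y hyB
        have h4 : ρ y ∉ B := by
          intro h5
          have h6 := hfix _ h3.1 h5
          rw [h3.2] at h6
          exact hyA (h6 ▸ h3.1)
        have h5 : (∃ x, x ∈ {x | x ∈ A ∧ x ∉ B ∧ x ∈ I} ∧ π x = y) ↔ ρ y ∈ I := by
          constructor
          · rintro ⟨x, hx, hxy⟩
            have h6 : x = ρ y := hbij.injOn (Finset.mem_coe.2 hx.1) (Finset.mem_coe.2 h3.1)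
              (hxy.trans h3.2.symm)
            rw [← h6]
            exact hx.2.2
          · intro h6
            exact ⟨ρ y, ⟨h3.1, h4, h6⟩, h3.2⟩
        rw [h5]
        simp [hyA, hyB]
      · have h3 : ¬ ∃ x, x ∈ {x | x ∈ A ∧ x ∉ B ∧ x ∈ I} ∧ π x = y := by
          rintro ⟨x, hx, rfl⟩
          exact hyB (hpi x hx.1)
        rw [or_iff_left h3]
        simp [hyA, hyB]
    show M.IsBase _
    rw [h2]
    exact h

/-- The uniform matroid of rank `n` on `2n` elements. -/
noncomputable def unif (n : ℕ) : Matroid (Fin (n + n)) :=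
  (IndepMatroid.ofFinite (E := Set.univ) Set.finite_univ (fun I => I.ncard ≤ n)
    (by simp)
    (fun I J hJ hIJ => (Set.ncard_le_ncard hIJ (Set.toFinite J)).trans hJ)
    (fun I J hI hJ hIJ => by
      obtain ⟨e, heJ, heI⟩ := Set.exists_mem_notMem_of_ncard_lt_ncard hIJ (Set.toFinite I)
      refine ⟨e, heJ, heI, ?_⟩
      rw [Set.ncard_insert_of_notMem heI (Set.toFinite I)]
      omega)
    (fun I _ => Set.subset_univ I)).matroid

theorem unif_isBase (n : ℕ) (B : Set (Fin (n + n))) : (unif n).IsBase B ↔ B.ncard = n := by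
  have hind : ∀ I : Set (Fin (n + n)), (unif n).Indep I ↔ I.ncard ≤ n := fun I => Iff.rfl
  rw [Matroid.isBase_iff_maximal_indep]
  constructor
  · intro h
    have h1 := (hind B).1 h.prop
    by_contra h2
    have h3 : B.ncard < n := lt_of_le_of_ne h1 h2
    have h4 : ∃ e, e ∉ B := by
      by_contra h5
      push Not at h5
      have h6 : B = Set.univ := Set.eq_univ_of_forall h5
      rw [h6, Set.ncard_univ, Nat.card_eq_fintype_card, Fintype.card_fin] at h3
      omega
    obtain ⟨e, he⟩ := h4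
    have h5 : (unif n).Indep (insert e B) := by
      rw [hind, Set.ncard_insert_of_notMem he (Set.toFinite B)]
      omega
    have h6 := h.le_of_ge h5 (Set.subset_insert e B)
    exact he (h6 (Set.mem_insert e B))
  · intro h
    refine ⟨(hind B).2 h.le, fun J hJ hBJ => ?_⟩
    have h1 := (hind J).1 hJ
    have h2 := Set.eq_of_subset_of_ncard_le hBJ (by omega) (Set.toFinite J)
    exact h2.symm.le

theorem unif_sbo (n : ℕ) : StronglyBaseOrderable (unif n) := by
  classical
  intro A B hA hB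
  rw [unif_isBase] at hA hB
  have h1 : (A \ B).encard = (B \ A).encard := by
    rw [← Set.encard_eq_encard_iff_encard_sdiff_eq_encard_sdiff (Set.toFinite _),
      ← (Set.toFinite A).cast_ncard_eq, ← (Set.toFinite B).cast_ncard_eq, hA, hB]
  obtain ⟨f, hf⟩ : ∃ f : Fin (n + n) → Fin (n + n), Set.BijOn f (A \ B) (B \ A) := by
    rcases isEmpty_or_nonempty (Fin (n + n)) with h | h
    · exact ⟨id, by
        have e1 : A \ B = ∅ := Set.eq_empty_of_isEmpty _
        have e2 : B \ A = ∅ := Set.eq_empty_of_isEmpty _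
        rw [e1, e2]
        exact Set.bijOn_empty _⟩
    · exact (Set.toFinite _).exists_bijOn_of_encard_eq h1
  set π : Fin (n + n) → Fin (n + n) := fun x => if x ∈ B then x else f x with hπ
  have hmaps : ∀ x ∈ A, π x ∈ B := by
    intro x hx
    simp only [hπ]
    split_ifs with h
    · exact h
    · exact (hf.mapsTo ⟨hx, h⟩).1
  have hfixes : ∀ x ∈ A, π x ∈ A → π x = x := by
    intro x hx h
    simp only [hπ] at h ⊢
    split_ifs at h ⊢ with h2
    · rfl
    · exact absurd h (hf.mapsTo ⟨hx, h2⟩).2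
  have hinj : Set.InjOn π A := by
    intro x hx y hy hxy
    by_cases h1 : x ∈ B <;> by_cases h2 : y ∈ B
    · simpa [hπ, h1, h2] using hxy
    · have h3 : π x = x := by simp [hπ, h1]
      have h4 : π y = f y := by simp [hπ, h2]
      exfalso
      have h5 := (hf.mapsTo ⟨hy, h2⟩).2
      rw [← h4, ← hxy, h3] at h5
      exact h5 hx
    · have h3 : π y = y := by simp [hπ, h2]
      have h4 : π x = f x := by simp [hπ, h1]
      exfalso
      have h5 := (hf.mapsTo ⟨hx, h1⟩).2
      rw [← h4, hxy, h3] at h5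
      exact h5 hy
    · have h3 : f x = f y := by simpa [hπ, h1, h2] using hxy
      exact hf.injOn ⟨hx, h1⟩ ⟨hy, h2⟩ h3
  refine ⟨π, ⟨fun x hx => hmaps x hx, hinj, ?_⟩, fun X hX => ?_⟩
  · intro y hy
    by_cases h : y ∈ A
    · exact ⟨y, h, by simp [hπ, hy]⟩
    · obtain ⟨x, hx, hxy⟩ := hf.surjOn ⟨hy, h⟩
      exact ⟨x, hx.1, by simp [hπ, hx.2, hxy]⟩
  · rw [unif_isBase]
    have h2 : (A \ X) ∪ π '' X = (fun x => if x ∈ X then π x else x) '' A := by
      ext y
      simp only [Set.mem_union, Set.mem_sdiff, Set.mem_image]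
      constructor
      · rintro (⟨h3, h4⟩ | ⟨x, h3, h4⟩)
        · exact ⟨y, h3, by simp [h4]⟩
        · exact ⟨x, hX h3, by simp [h3, h4]⟩
      · rintro ⟨x, h3, h4⟩
        split_ifs at h4 with h5
        · exact Or.inr ⟨x, h5, h4⟩
        · exact Or.inl ⟨h4 ▸ h3, h4 ▸ h5⟩
    rw [h2, Set.InjOn.ncard_image, hA]
    intro x hx y hy hxy
    simp only at hxy
    split_ifs at hxy with h3 h4 h4
    · exact hinj hx hy hxy
    · have h5 := hfixes x hx (hxy ▸ hy)
      rw [h5] at hxy
      exact hxy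
    · have h5 := hfixes y hy (hxy ▸ hx)
      rw [h5] at hxy
      exact hxy
    · exact hxy

end Pool.Agent.U515.KX
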