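import Pool.Agent.U515.KX.Abs
import Pool.Agent.U515.KX.Mat

/-!
# Block vectors of set systems
-/

set_option autoImplicit false

namespace Pool.Agent.U515.KX

/-- Every element lies in at most `t` of the sets. -/
def DegreeLE {m n : ℕ} (S : Fin m → Finset (Fin n)) (t : ℕ) : Prop :=
  ∀ i, (Finset.univ.filter (fun j => i ∈ S j)).card ≤ t

/-- Some colouring has discrepancy at most `R`. -/
def DiscLE {m n : ℕ} (S : Fin m → Finset (Fin n)) (R : ℝ) : Prop :=
  ∃ χ : Fin n → ℤ, (∀ i, χ i = 1 ∨ χ i = -1) ∧ ∀ j, |∑ i ∈ S j, (χ i : ℝ)| ≤ R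

theorem bf_block {n m s t N : ℕ} (S : Fin m → Finset (Fin n)) (hS : DegreeLE S t) (B : ℝ)
    (hB : ∀ T : Fin (m * (2 * s)) → Finset (Fin (N * n)), DegreeLE T (s * t) → DiscLE T B) :
    BlockBound s (fun x k => if x ∈ S k then (1:ℝ) else 0) N (2 * s * B) := by
  classical
  intro K a hK ha
  -- the position of an element in its block
  set rank : Fin N × Fin n → Fin n → ℕ := fun p x => ((K p).filter (fun y => y < x)).card
    with hrank
  have hrlt : ∀ p x, x ∈ K p → rank p x < s := by
    intro p x hx
    refine lt_of_lt_of_le (Finset.card_lt_card ?_) (hK p)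
    refine ⟨Finset.filter_subset _ _, fun h => ?_⟩
    have := h hx
    simp at this
  have hrinj : ∀ p x y, x ∈ K p → y ∈ K p → rank p x = rank p y → x = y := by
    have hmono : ∀ p x y, x ∈ K p → x < y → rank p x < rank p y := by
      intro p x y hx hxy
      refine Finset.card_lt_card ⟨fun z hz => ?_, fun h => ?_⟩
      · rw [Finset.mem_filter] at hz ⊢
        exact ⟨hz.1, hz.2.trans hxy⟩
      · have := h (Finset.mem_filter.2 ⟨hx, hxy⟩)
        simp at this
    intro p x y hx hy hxy
    rcases lt_trichotomy x y with h | h | h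
    · have := hmono p x y hx h
      omega
    · exact h
    · have := hmono p y x hy h
      omega
  set T : Fin m × (Bool × Fin s) → Finset (Fin N × Fin n) := fun q =>
    Finset.univ.filter (fun p => ∃ x ∈ K p, rank p x = q.2.2 ∧ (decide (a p x = 1) = q.2.1) ∧
      x ∈ S q.1) with hT
  have e1 : Fin m × (Bool × Fin s) ≃ Fin (m * (2 * s)) := Fintype.equivFinOfCardEq (by simp)
  have e2 : Fin N × Fin n ≃ Fin (N * n) := Fintype.equivFinOfCardEq (by simp)
  obtain ⟨χ, hχ, hχB⟩ := hB (fun j => (T (e1.symm j)).map e2.toEmbedding) (fun i => by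
    obtain ⟨p, rfl⟩ := e2.surjective i
    have h1 : (Finset.univ.filter (fun j => e2 p ∈ (T (e1.symm j)).map e2.toEmbedding)).card =
        (Finset.univ.filter (fun q => p ∈ T q)).card := by
      refine Finset.card_bij' (fun j _ => e1.symm j) (fun q _ => e1 q) ?_ ?_ ?_ ?_
      · intro j hj
        simpa using hj
      · intro q hq
        simpa using hq
      · intro j _
        simp
      · intro q _
        simp
    rw [h1]
    have h2 : (Finset.univ.filter (fun q => p ∈ T q)).card ≤
        ((K p).sigma (fun x => Finset.univ.filter (fun k => x ∈ S k))).card := by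
      refine Finset.card_le_card_of_forall_subsingleton
        (fun q z => rank p z.1 = q.2.2 ∧ (decide (a p z.1 = 1) = q.2.1) ∧ z.2 = q.1)
        (fun q hq => ?_) (fun z hz => ?_)
      · simp only [hT, Finset.mem_filter, Finset.mem_univ, true_and] at hq
        obtain ⟨x, hx, h3, h4, h5⟩ := hq
        exact ⟨⟨x, q.1⟩, by simp [hx, h5], h3, h4, rfl⟩
      · rintro q ⟨_, hq1, hq2, hq3⟩ q' ⟨_, hq1', hq2', hq3'⟩
        refine Prod.ext (hq3.symm.trans hq3') (Prod.ext (hq2.symm.trans hq2') (Fin.ext ?_))
        exact hq1.symm.trans hq1'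
    refine h2.trans ?_
    rw [Finset.card_sigma]
    calc ∑ x ∈ K p, (Finset.univ.filter (fun k => x ∈ S k)).card ≤ ∑ x ∈ K p, t :=
          Finset.sum_le_sum fun x _ => hS x
      _ = (K p).card * t := by simp
      _ ≤ s * t := Nat.mul_le_mul_right _ (hK p))
  refine ⟨fun p => (χ (e2 p) : ℝ), fun p => ?_, fun k => ?_⟩
  · rcases hχ (e2 p) with h | h
    · left; simp [h]
    · right; simp [h]
  · -- the sum of a block vector
    have h1 : ∀ p : Fin N × Fin n, ∑ x ∈ K p, a p x * (if x ∈ S k then (1:ℝ) else 0) =
        ∑ u : Bool × Fin s, (if u.1 then (1:ℝ) else -1) * (if p ∈ T (k, u) then 1 else 0) := by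
      intro p
      have h2 : ∀ u : Bool × Fin s, (if p ∈ T (k, u) then (1:ℝ) else 0) =
          ∑ x ∈ K p, if (rank p x = u.2 ∧ (decide (a p x = 1) = u.1) ∧ x ∈ S k) then (1:ℝ)
            else 0 := by
        intro u
        by_cases h : p ∈ T (k, u)
        · rw [if_pos h]
          simp only [hT, Finset.mem_filter, Finset.mem_univ, true_and] at h
          obtain ⟨x, hx, h3, h4, h5⟩ := h
          rw [Finset.sum_eq_single x]
          · rw [if_pos ⟨h3, h4, h5⟩]
          · intro y hy hyx
            rw [if_neg]
            rintro ⟨h6, _, _⟩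
            exact hyx (hrinj p y x hy hx (h6.trans h3.symm))
          · intro h6
            exact absurd hx h6
        · rw [if_neg h]
          symm
          refine Finset.sum_eq_zero fun x hx => ?_
          rw [if_neg]
          intro h3
          exact h (by
            simp only [hT, Finset.mem_filter, Finset.mem_univ, true_and]
            exact ⟨x, hx, h3⟩)
      simp_rw [h2, Finset.mul_sum]
      rw [Finset.sum_comm]
      refine Finset.sum_congr rfl fun x hx => ?_
      rw [Finset.sum_eq_single (decide (a p x = 1), ⟨rank p x, hrlt p x hx⟩)]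
      · by_cases h3 : x ∈ S k
        · rcases ha p x hx with h4 | h4
          · simp [h3, h4]
          · have h5 : ¬ (-1 : ℝ) = 1 := by norm_num
            simp [h3, h4, h5]
        · simp [h3]
      · intro u _ hu
        have h5 : ¬ (rank p x = u.2 ∧ (decide (a p x = 1) = u.1) ∧ x ∈ S k) := by
          rintro ⟨h3, h4, _⟩
          exact hu (Prod.ext h4.symm (Fin.ext h3.symm))
        rw [if_neg h5, mul_zero]
      · intro h
        exact absurd (Finset.mem_univ _) h
    have h3 : ∑ p, (χ (e2 p) : ℝ) * ∑ x ∈ K p, a p x * (if x ∈ S k then (1:ℝ) else 0) =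
        ∑ u : Bool × Fin s, (if u.1 then (1:ℝ) else -1) *
          ∑ i ∈ (T (k, u)).map e2.toEmbedding, (χ i : ℝ) := by
      simp_rw [h1, Finset.mul_sum]
      rw [Finset.sum_comm]
      refine Finset.sum_congr rfl fun u _ => ?_
      rw [Finset.sum_map, ← Finset.sum_filter_add_sum_filter_not Finset.univ
        (fun p => p ∈ T (k, u))]
      rw [Finset.sum_eq_zero (s := Finset.univ.filter (fun p => ¬ p ∈ T (k, u)))]
      · rw [add_zero, Finset.filter_univ_mem]
        refine Finset.sum_congr rfl fun p hp => ?_
        rw [if_pos hp]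
        simp only [Equiv.toEmbedding_apply]
        ring
      · intro p hp
        rw [if_neg (Finset.mem_filter.1 hp).2]
        ring
    rw [h3]
    refine (Finset.abs_sum_le_sum_abs _ _).trans ?_
    calc ∑ u : Bool × Fin s, |(if u.1 then (1:ℝ) else -1) *
          ∑ i ∈ (T (k, u)).map e2.toEmbedding, (χ i : ℝ)| ≤ ∑ u : Bool × Fin s, B := by
          refine Finset.sum_le_sum fun u _ => ?_
          have h4 := hχB (e1 (k, u))
          simp only [Equiv.symm_apply_apply] at h4
          rw [abs_mul]
          have h5 : |(if u.1 then (1:ℝ) else -1)| = 1 := by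
            split_ifs <;> simp
          rw [h5, one_mul]
          exact h4
      _ = 2 * s * B := by simp

end Pool.Agent.U515.KX
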