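import Pool.Agent.U515.KX.Hull

/-!
# Balancing superpositions: abstract form

As in `Core` and `Hull`, with an arbitrary bound for the signings of the block vectors.
-/

set_option autoImplicit false

namespace Pool.Agent.U515.KX

/-- All families of `N n` signed sums of at most `s` of the vectors have signings of value at most
`b`. -/
def BlockBound {n d : ℕ} (s : ℕ) (v : Fin n → Fin d → ℝ) (N : ℕ) (b : ℝ) : Prop :=
  ∀ (K : Fin N × Fin n → Finset (Fin n)) (a : Fin N × Fin n → Fin n → ℝ),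
    (∀ p, (K p).card ≤ s) → (∀ p, ∀ x ∈ K p, a p x = 1 ∨ a p x = -1) →
    ∃ ε : Fin N × Fin n → ℝ, (∀ p, ε p = 1 ∨ ε p = -1) ∧
      ∀ k, |∑ p, ε p * ∑ x ∈ K p, a p x * v x k| ≤ b

/-- One halving step. -/
theorem halve' {n d s : ℕ} {F : Set (Finset (Fin n))} (hF : Exchangeable s F)
    (v : Fin n → Fin d → ℝ) (N : ℕ) (b : ℝ) (hb : BlockBound s v N b)
    (A : ℕ → Finset (Fin n)) (hA : ∀ i, A i ∈ F) :
    ∃ C D : ℕ → Finset (Fin n), (∀ i, C i ∈ F) ∧ (∀ i, D i ∈ F) ∧
      (∀ i x, ind (C i) x + ind (D i) x = ind (A (2 * i)) x + ind (A (2 * i + 1)) x) ∧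
      (∀ k, |∑ i ∈ Finset.range N, ∑ j, ind (C i) j * v j k -
        (∑ i ∈ Finset.range (2 * N), ∑ j, ind (A i) j * v j k) / 2| ≤ b / 2) ∧
      (∀ k, |∑ i ∈ Finset.range N, ∑ j, ind (D i) j * v j k -
        (∑ i ∈ Finset.range (2 * N), ∑ j, ind (A i) j * v j k) / 2| ≤ b / 2) := by
  classical
  choose c hc1 hc2 using fun i => hF (A (2 * i)) (hA _) (A (2 * i + 1)) (hA _)
  set S : ℕ → Finset (Fin n) := fun i => symmDiff (A (2 * i)) (A (2 * i + 1)) with hS
  set a : ℕ → Fin n → ℝ := fun i x => ind (A (2 * i + 1)) x - ind (A (2 * i)) x with ha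
  have ha1 : ∀ i x, x ∈ S i → a i x = 1 ∨ a i x = -1 := by
    intro i x hx
    simp only [hS, Finset.mem_symmDiff] at hx
    simp only [ha, ind]
    by_cases h1 : x ∈ A (2 * i) <;> by_cases h2 : x ∈ A (2 * i + 1) <;> simp_all
  have ha0 : ∀ i x, x ∉ S i → a i x = 0 := by
    intro i x hx
    simp only [hS, Finset.mem_symmDiff] at hx
    simp only [ha, ind]
    by_cases h1 : x ∈ A (2 * i) <;> by_cases h2 : x ∈ A (2 * i + 1) <;> simp_all
  obtain ⟨ε0, hε0, hε0b⟩ := hb (fun p => (S p.1).filter (fun x => c p.1 x = p.2))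
    (fun p => a p.1) (fun p => hc1 p.1 p.2)
    (fun p x hx => ha1 p.1 x (Finset.mem_filter.1 hx).1)
  set ε : ℕ → Fin n → ℝ := fun i l => if h : i < N then ε0 (⟨i, h⟩, l) else 1 with hεdef
  have hε : ∀ i l, ε i l = 1 ∨ ε i l = -1 := by
    intro i l
    simp only [hεdef]
    split_ifs with h
    · exact hε0 _
    · exact Or.inl rfl
  have hεb : ∀ k, |∑ i ∈ Finset.range N, ∑ x, ε i (c i x) * (a i x * v x k)| ≤ b := by
    intro k
    have h1 : ∑ i ∈ Finset.range N, ∑ x, ε i (c i x) * (a i x * v x k) =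
        ∑ p : Fin N × Fin n, ε0 p *
          ∑ x ∈ (S p.1).filter (fun x => c p.1 x = p.2), a p.1 x * v x k := by
      rw [Fintype.sum_prod_type, Finset.sum_range]
      refine Finset.sum_congr rfl fun i _ => ?_
      have h2 : ∑ x, ε i (c i x) * (a i x * v x k) =
          ∑ x ∈ S i, ε i (c i x) * (a i x * v x k) := by
        symm
        refine Finset.sum_subset (Finset.subset_univ _) fun x _ hx => ?_
        rw [ha0 _ _ hx]; ring
      rw [h2, ← Finset.sum_fiberwise_of_maps_to (t := Finset.univ) (g := c i)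
        (fun _ _ => Finset.mem_univ _)]
      refine Finset.sum_congr rfl fun l _ => ?_
      rw [Finset.mul_sum]
      refine Finset.sum_congr rfl fun x hx => ?_
      rw [(Finset.mem_filter.1 hx).2]
      simp only [hεdef, i.isLt, dif_pos]
    rw [h1]
    exact hε0b k
  refine ⟨fun i => symmDiff (A (2 * i)) ((S i).filter
      (fun x => c i x ∈ Finset.univ.filter (fun l => ε i l = 1))),
    fun i => symmDiff (A (2 * i)) ((S i).filter
      (fun x => c i x ∈ Finset.univ.filter (fun l => -ε i l = 1))),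
    fun i => hc2 i _, fun i => hc2 i _, fun i x => ?_, fun k => ?_, fun k => ?_⟩
  · rw [ind_switch _ _ (c i) (ε i) (hε i) _ (by simp) x,
      ind_switch _ _ (c i) (fun l => -ε i l) (fun l => by
        rcases hε i l with h | h
        · right; rw [h]
        · left; rw [h]; norm_num) _ (by simp) x]
    ring
  · have h1 : ∑ i ∈ Finset.range N, ∑ j, ind (symmDiff (A (2 * i)) ((S i).filter
        (fun x => c i x ∈ Finset.univ.filter (fun l => ε i l = 1)))) j * v j k -
        (∑ i ∈ Finset.range (2 * N), ∑ j, ind (A i) j * v j k) / 2 =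
        (∑ i ∈ Finset.range N, ∑ x, ε i (c i x) * (a i x * v x k)) / 2 := by
      rw [sum_even_odd, Finset.sum_div, Finset.sum_div, ← Finset.sum_sub_distrib]
      refine Finset.sum_congr rfl fun i _ => ?_
      rw [← Finset.sum_add_distrib, Finset.sum_div, Finset.sum_div, ← Finset.sum_sub_distrib]
      refine Finset.sum_congr rfl fun x _ => ?_
      rw [ind_switch _ _ (c i) (ε i) (hε i) _ (by simp) x]
      simp only [ha]
      ring
    rw [h1, abs_div, abs_two]
    have := hεb k
    linarith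
  · have h1 : ∑ i ∈ Finset.range N, ∑ j, ind (symmDiff (A (2 * i)) ((S i).filter
        (fun x => c i x ∈ Finset.univ.filter (fun l => -ε i l = 1)))) j * v j k -
        (∑ i ∈ Finset.range (2 * N), ∑ j, ind (A i) j * v j k) / 2 =
        -((∑ i ∈ Finset.range N, ∑ x, ε i (c i x) * (a i x * v x k)) / 2) := by
      rw [sum_even_odd, Finset.sum_div, Finset.sum_div, ← Finset.sum_sub_distrib,
        ← Finset.sum_neg_distrib]
      refine Finset.sum_congr rfl fun i _ => ?_
      rw [← Finset.sum_add_distrib, Finset.sum_div, Finset.sum_div, ← Finset.sum_sub_distrib,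
        ← Finset.sum_neg_distrib]
      refine Finset.sum_congr rfl fun x _ => ?_
      rw [ind_switch _ _ (c i) (fun l => -ε i l) (fun l => by
        rcases hε i l with h | h
        · right; rw [h]
        · left; rw [h]; norm_num) _ (by simp) x]
      simp only [ha]
      ring
    rw [h1, abs_neg, abs_div, abs_two]
    have := hεb k
    linarith

/-- **Balancing.** -/
theorem balance' {n d s : ℕ} {F : Set (Finset (Fin n))} (hF : Exchangeable s F)
    (v : Fin n → Fin d → ℝ) (b : ℕ → ℝ) (hb : ∀ k, BlockBound s v (2 ^ k) (b k)) (m : ℕ) :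
    ∀ (A : ℕ → Finset (Fin n)), (∀ i, A i ∈ F) →
    ∃ C : ℕ → Finset (Fin n), (∀ i, C i ∈ F) ∧
      (∀ x, ∑ i ∈ Finset.range (2 ^ m), ind (C i) x = ∑ i ∈ Finset.range (2 ^ m), ind (A i) x) ∧
      ∀ i < 2 ^ m, ∀ k, |∑ j, ind (C i) j * v j k -
        (∑ i ∈ Finset.range (2 ^ m), ∑ j, ind (A i) j * v j k) / 2 ^ m| ≤
        ∑ l ∈ Finset.range m, b l / 2 ^ (l + 1) := by
  induction m with
  | zero =>
    intro A hA
    refine ⟨A, hA, fun x => rfl, fun i hi k => ?_⟩
    have : i = 0 := by simpa using hi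
    subst this
    simp
  | succ m ih =>
    intro A hA
    obtain ⟨C, D, hC, hD, hCD, hC2, hD2⟩ := halve' hF v (2 ^ m) (b m) (hb m) A hA
    obtain ⟨C', hC', hC'1, hC'2⟩ := ih C hC
    obtain ⟨D', hD', hD'1, hD'2⟩ := ih D hD
    refine ⟨fun i => if i % 2 = 0 then C' (i / 2) else D' (i / 2), fun i => ?_, fun x => ?_,
      fun i hi k => ?_⟩
    · show (if i % 2 = 0 then C' (i / 2) else D' (i / 2)) ∈ F
      split_ifs
      · exact hC' _
      · exact hD' _
    · rw [pow_succ, mul_comm, sum_even_odd, sum_even_odd]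
      have h1 : ∀ i, ind (if (2 * i) % 2 = 0 then C' ((2 * i) / 2) else D' ((2 * i) / 2)) x =
          ind (C' i) x := by
        intro i
        rw [if_pos (by omega)]
        congr 2
        omega
      have h2 : ∀ i, ind (if (2 * i + 1) % 2 = 0 then C' ((2 * i + 1) / 2) else
          D' ((2 * i + 1) / 2)) x = ind (D' i) x := by
        intro i
        rw [if_neg (by omega)]
        congr 2
        omega
      simp_rw [h1, h2]
      rw [Finset.sum_add_distrib, hC'1, hD'1, ← Finset.sum_add_distrib]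
      exact Finset.sum_congr rfl fun i _ => hCD i x
    · have hi2 : i / 2 < 2 ^ m := by
        rw [pow_succ] at hi
        omega
      have hpow : (0:ℝ) < 2 ^ m := by positivity
      have key : ∀ X Y Z b' e : ℝ, |X - Y / 2 ^ m| ≤ e → |Y - Z / 2| ≤ b' / 2 →
          |X - Z / 2 ^ (m + 1)| ≤ e + b' / 2 ^ (m + 1) := by
        intro X Y Z b' e h1 h2
        have h3 : X - Z / 2 ^ (m + 1) = (X - Y / 2 ^ m) + (Y - Z / 2) / 2 ^ m := by
          rw [pow_succ]
          field_simp
          ring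
        rw [h3]
        refine (abs_add_le _ _).trans (add_le_add h1 ?_)
        rw [abs_div, abs_of_pos hpow]
        calc |Y - Z / 2| / 2 ^ m ≤ (b' / 2) / 2 ^ m := by gcongr
          _ = b' / 2 ^ (m + 1) := by rw [pow_succ]; field_simp
      rw [Finset.sum_range_succ]
      have e1 : ∑ i ∈ Finset.range (2 ^ (m + 1)), ∑ j, ind (A i) j * v j k =
          ∑ i ∈ Finset.range (2 * 2 ^ m), ∑ j, ind (A i) j * v j k := by
        rw [pow_succ, mul_comm]
      rw [e1]
      rcases Nat.mod_two_eq_zero_or_one i with h | h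
      · simp only [h, if_true]
        exact key _ _ _ _ _ (hC'2 _ hi2 k) (hC2 k)
      · simp only [h, one_ne_zero, if_false]
        exact key _ _ _ _ _ (hD'2 _ hi2 k) (hD2 k)

/-- **Rounding a point of the hull.** -/
theorem round_hull' {n d s : ℕ} {F : Set (Finset (Fin n))} (hF : Exchangeable s F)
    (v : Fin n → Fin d → ℝ) (b : ℕ → ℝ) (hb : ∀ k, BlockBound s v (2 ^ k) (b k)) (R : ℝ)
    (hR : 0 < d → ∀ m, ∑ l ∈ Finset.range m, b l / 2 ^ (l + 1) ≤ R)
    (x : Fin n → ℝ) (hx : x ∈ convexHull ℝ (ind '' F)) :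
    ∃ A ∈ F, ∀ k, |∑ j ∈ A, v j k - ∑ j, x j * v j k| ≤ R := by
  have hclosed : IsClosed {x : Fin n → ℝ | ∃ A ∈ F, ∀ k,
      |∑ j ∈ A, v j k - ∑ j, x j * v j k| ≤ R} := by
    have h1 : {x : Fin n → ℝ | ∃ A ∈ F, ∀ k, |∑ j ∈ A, v j k - ∑ j, x j * v j k| ≤ R} =
        ⋃ A ∈ F, ⋂ k, {x : Fin n → ℝ | |∑ j ∈ A, v j k - ∑ j, x j * v j k| ≤ R} := by
      ext x
      simp
    rw [h1]
    refine Set.Finite.isClosed_biUnion (Set.toFinite F) fun A _ => isClosed_iInter fun k => ?_
    exact isClosed_le (by fun_prop) continuous_const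
  have hsub : Dyadic F ⊆ {x : Fin n → ℝ | ∃ A ∈ F, ∀ k,
      |∑ j ∈ A, v j k - ∑ j, x j * v j k| ≤ R} := by
    rintro x ⟨m, A, hA, hxA⟩
    obtain ⟨C, hC, hC1, hC2⟩ := balance' hF v b hb m A hA
    refine ⟨C 0, hC 0, fun k => ?_⟩
    have h := (hC2 0 (by positivity) k).trans (hR (Fin.pos k) m)
    have e1 : ∑ j ∈ C 0, v j k = ∑ j, ind (C 0) j * v j k := by
      simp [ind, Finset.sum_ite_mem]
    have e2 : ∑ j, x j * v j k =
        (∑ i ∈ Finset.range (2 ^ m), ∑ j, ind (A i) j * v j k) / 2 ^ m := by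
      rw [Finset.sum_comm, Finset.sum_div]
      refine Finset.sum_congr rfl fun j _ => ?_
      rw [hxA j, ← Finset.sum_mul]
      ring
    rw [e1, e2]
    exact h
  exact closure_minimal hsub hclosed (hull_subset F hx)

end Pool.Agent.U515.KX
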