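import Mathlib

/-!
# Balancing superpositions of members of an exchangeable family
-/

set_option autoImplicit false

namespace Pool.Agent.U515.KX

/-- The vectors `v_1, …, v_n` lie in the closed Euclidean unit ball of `ℝ^d`. -/
def InBall {n d : ℕ} (v : Fin n → Fin d → ℝ) : Prop := ∀ i, ∑ k, v i k ^ 2 ≤ 1

/-- Some signing of the vectors has value at most `B`. -/
def HasSigning {n d : ℕ} (v : Fin n → Fin d → ℝ) (B : ℝ) : Prop :=
  ∃ ε : Fin n → ℝ, (∀ i, ε i = 1 ∨ ε i = -1) ∧ ∀ k, |∑ i, ε i * v i k| ≤ B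

/-- The indicator vector of a set. -/
def ind {n : ℕ} (A : Finset (Fin n)) : Fin n → ℝ := fun j => if j ∈ A then 1 else 0

/-- Two members `A`, `B` differ in a set which can be coloured so that no colour is used more than
`s` times and that switching any set of colour classes leads from `A` to a member of the
family. -/
def Exchangeable {n : ℕ} (s : ℕ) (F : Set (Finset (Fin n))) : Prop :=
  ∀ A ∈ F, ∀ B ∈ F, ∃ c : Fin n → Fin n,
    (∀ i, ((symmDiff A B).filter (fun x => c x = i)).card ≤ s) ∧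
    ∀ I : Finset (Fin n), symmDiff A ((symmDiff A B).filter (fun x => c x ∈ I)) ∈ F

theorem sum_even_odd (f : ℕ → ℝ) (N : ℕ) :
    ∑ i ∈ Finset.range (2 * N), f i = ∑ i ∈ Finset.range N, (f (2 * i) + f (2 * i + 1)) := by
  induction N with
  | zero => simp
  | succ N ih =>
    rw [show 2 * (N + 1) = 2 * N + 1 + 1 from by ring, Finset.sum_range_succ,
      Finset.sum_range_succ, ih, Finset.sum_range_succ]
    ring

theorem sign_scaled {d N : ℕ} {ι : Type} [Fintype ι] (hι : Fintype.card ι = N) (b r : ℝ)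
    (hr : 0 ≤ r) (hb : ∀ w : Fin N → Fin d → ℝ, InBall w → HasSigning w b)
    (u : ι → Fin d → ℝ) (hu : ∀ i, ∑ k, u i k ^ 2 ≤ r ^ 2) :
    ∃ ε : ι → ℝ, (∀ i, ε i = 1 ∨ ε i = -1) ∧ ∀ k, |∑ i, ε i * u i k| ≤ r * b := by
  rcases hr.eq_or_lt with h0 | h0
  · refine ⟨fun _ => 1, fun _ => Or.inl rfl, fun k => ?_⟩
    have h1 : ∀ i, u i k = 0 := by
      intro i
      have h2 := hu i
      rw [← h0] at h2
      have h3 : u i k ^ 2 ≤ ∑ k, u i k ^ 2 :=
        Finset.single_le_sum (f := fun k => u i k ^ 2) (fun _ _ => sq_nonneg _)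
          (Finset.mem_univ k)
      have h4 : u i k ^ 2 = 0 := le_antisymm (by nlinarith) (sq_nonneg _)
      exact pow_eq_zero_iff (two_ne_zero) |>.1 h4
    simp [h1, ← h0]
  · have e := Fintype.equivFinOfCardEq hι
    obtain ⟨ε, hε, hε2⟩ := hb (fun i k => u (e.symm i) k / r) (fun i => by
      simp_rw [div_pow]
      rw [← Finset.sum_div, div_le_one (by positivity)]
      exact hu _)
    refine ⟨fun i => ε (e i), fun i => hε _, fun k => ?_⟩
    have h1 : ∑ i, ε (e i) * u i k = r * ∑ i, ε i * (u (e.symm i) k / r) := by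
      rw [Finset.mul_sum, ← Equiv.sum_comp e]
      refine Finset.sum_congr rfl fun i _ => ?_
      rw [Equiv.symm_apply_apply]
      field_simp
    rw [h1, abs_mul, abs_of_pos h0]
    exact mul_le_mul_of_nonneg_left (hε2 k) h0.le

theorem block_norm {n d : ℕ} (v : Fin n → Fin d → ℝ) (hv : InBall v) (K : Finset (Fin n))
    (a : Fin n → ℝ) (ha : ∀ x, a x ^ 2 ≤ 1) (s : ℕ) (hs : K.card ≤ s) :
    ∑ k, (∑ x ∈ K, a x * v x k) ^ 2 ≤ (s : ℝ) ^ 2 := by
  have h1 : ∀ k, (∑ x ∈ K, a x * v x k) ^ 2 ≤ (K.card : ℝ) * ∑ x ∈ K, (a x * v x k) ^ 2 :=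
    fun k => sq_sum_le_card_mul_sum_sq
  have h2 : ∑ k, (∑ x ∈ K, a x * v x k) ^ 2 ≤ (K.card : ℝ) * ∑ x ∈ K, ∑ k, (a x * v x k) ^ 2 := by
    rw [Finset.sum_comm, Finset.mul_sum]
    exact Finset.sum_le_sum fun k _ => h1 k
  have h3 : ∑ x ∈ K, ∑ k, (a x * v x k) ^ 2 ≤ (K.card : ℝ) := by
    calc ∑ x ∈ K, ∑ k, (a x * v x k) ^ 2 ≤ ∑ x ∈ K, (1 : ℝ) := by
          refine Finset.sum_le_sum fun x _ => ?_
          simp_rw [mul_pow]
          rw [← Finset.mul_sum]
          have := hv x
          have h4 : 0 ≤ ∑ k, v x k ^ 2 := Finset.sum_nonneg fun _ _ => sq_nonneg _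
          nlinarith [ha x, sq_nonneg (a x)]
      _ = (K.card : ℝ) := by simp
  have h4 : (K.card : ℝ) ≤ s := by exact_mod_cast hs
  have h5 : (0 : ℝ) ≤ K.card := by positivity
  calc ∑ k, (∑ x ∈ K, a x * v x k) ^ 2 ≤ (K.card : ℝ) * K.card :=
        h2.trans (mul_le_mul_of_nonneg_left h3 h5)
    _ ≤ (s : ℝ) ^ 2 := by nlinarith

/-- the effect of switching some colour classes -/
theorem ind_switch {n : ℕ} (A B : Finset (Fin n)) (c : Fin n → Fin n) (ε : Fin n → ℝ)
    (hε : ∀ l, ε l = 1 ∨ ε l = -1) (I : Finset (Fin n)) (hI : ∀ l, l ∈ I ↔ ε l = 1) (x : Fin n) :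
    ind (symmDiff A ((symmDiff A B).filter (fun x => c x ∈ I))) x =
      (ind A x + ind B x) / 2 + ε (c x) * ((ind B x - ind A x) / 2) := by
  classical
  have h1 : x ∈ symmDiff A ((symmDiff A B).filter (fun x => c x ∈ I)) ↔
      (if ε (c x) = 1 then x ∈ B else x ∈ A) := by
    simp only [Finset.mem_symmDiff, Finset.mem_filter, hI]
    by_cases hA : x ∈ A <;> by_cases hB : x ∈ B <;> by_cases h : ε (c x) = 1 <;> simp [hA, hB, h]
  unfold ind
  rcases hε (c x) with h | h
  · rw [if_congr h1 rfl rfl]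
    simp only [h, if_true]
    ring
  · have h2 : ε (c x) ≠ 1 := by rw [h]; norm_num
    rw [if_congr h1 rfl rfl]
    simp only [if_neg h2]
    rw [h]
    ring

/-- One halving step. -/
theorem halve {n d s : ℕ} {F : Set (Finset (Fin n))} (hF : Exchangeable s F)
    (v : Fin n → Fin d → ℝ) (hv : InBall v) (N : ℕ) (b : ℝ)
    (hb : ∀ w : Fin (N * n) → Fin d → ℝ, InBall w → HasSigning w b)
    (A : ℕ → Finset (Fin n)) (hA : ∀ i, A i ∈ F) :
    ∃ C D : ℕ → Finset (Fin n), (∀ i, C i ∈ F) ∧ (∀ i, D i ∈ F) ∧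
      (∀ i x, ind (C i) x + ind (D i) x = ind (A (2 * i)) x + ind (A (2 * i + 1)) x) ∧
      (∀ k, |∑ i ∈ Finset.range N, ∑ j, ind (C i) j * v j k -
        (∑ i ∈ Finset.range (2 * N), ∑ j, ind (A i) j * v j k) / 2| ≤ s * b / 2) ∧
      (∀ k, |∑ i ∈ Finset.range N, ∑ j, ind (D i) j * v j k -
        (∑ i ∈ Finset.range (2 * N), ∑ j, ind (A i) j * v j k) / 2| ≤ s * b / 2) := by
  classical
  choose c hc1 hc2 using fun i => hF (A (2 * i)) (hA _) (A (2 * i + 1)) (hA _)
  set S : ℕ → Finset (Fin n) := fun i => symmDiff (A (2 * i)) (A (2 * i + 1)) with hS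
  set a : ℕ → Fin n → ℝ := fun i x => ind (A (2 * i + 1)) x - ind (A (2 * i)) x with ha
  have ha1 : ∀ i x, a i x ^ 2 ≤ 1 := by
    intro i x
    simp only [ha, ind]
    by_cases h1 : x ∈ A (2 * i) <;> by_cases h2 : x ∈ A (2 * i + 1) <;> simp [h1, h2]
  have ha0 : ∀ i x, x ∉ S i → a i x = 0 := by
    intro i x hx
    simp only [hS, Finset.mem_symmDiff] at hx
    simp only [ha, ind]
    by_cases h1 : x ∈ A (2 * i) <;> by_cases h2 : x ∈ A (2 * i + 1) <;> simp_all
  obtain ⟨ε0, hε0, hε0b⟩ := sign_scaled (ι := Fin N × Fin n) (N := N * n) (d := d) (by simp) b s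
    (by positivity) hb
    (fun p k => ∑ x ∈ (S p.1).filter (fun x => c p.1 x = p.2), a p.1 x * v x k)
    (fun p => block_norm v hv _ _ (ha1 _) s (hc1 p.1 p.2))
  set ε : ℕ → Fin n → ℝ := fun i l => if h : i < N then ε0 (⟨i, h⟩, l) else 1 with hεdef
  have hε : ∀ i l, ε i l = 1 ∨ ε i l = -1 := by
    intro i l
    simp only [hεdef]
    split_ifs with h
    · exact hε0 _
    · exact Or.inl rfl
  have hεb : ∀ k, |∑ i ∈ Finset.range N, ∑ x, ε i (c i x) * (a i x * v x k)| ≤ s * b := by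
    intro k
    have h1 : ∑ i ∈ Finset.range N, ∑ x, ε i (c i x) * (a i x * v x k) =
        ∑ p : Fin N × Fin n, ε0 p *
          ∑ x ∈ (S p.1).filter (fun x => c p.1 x = p.2), a p.1 x * v x k := by
      rw [Fintype.sum_prod_type, Finset.sum_range]
      refine Finset.sum_congr rfl fun i _ => ?_
      have h2 : ∑ x, ε i (c i x) * (a i x * v x k) =
          ∑ x ∈ S i, ε i (c i x) * (a i x * v x k) := by
        symm
        refine Finset.sum_subset (Finset.subset_univ _) fun x _ hx => ?_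
        rw [ha0 _ _ hx]; ring
      rw [h2, ← Finset.sum_fiberwise_of_maps_to (t := Finset.univ) (g := c i)
        (fun _ _ => Finset.mem_univ _)]
      refine Finset.sum_congr rfl fun l _ => ?_
      rw [Finset.mul_sum]
      refine Finset.sum_congr rfl fun x hx => ?_
      rw [(Finset.mem_filter.1 hx).2]
      simp only [hεdef, i.isLt, dif_pos]
    rw [h1]
    exact hε0b k
  refine ⟨fun i => symmDiff (A (2 * i)) ((S i).filter
      (fun x => c i x ∈ Finset.univ.filter (fun l => ε i l = 1))),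
    fun i => symmDiff (A (2 * i)) ((S i).filter
      (fun x => c i x ∈ Finset.univ.filter (fun l => -ε i l = 1))),
    fun i => hc2 i _, fun i => hc2 i _, fun i x => ?_, fun k => ?_, fun k => ?_⟩
  · rw [ind_switch _ _ (c i) (ε i) (hε i) _ (by simp) x,
      ind_switch _ _ (c i) (fun l => -ε i l) (fun l => by
        rcases hε i l with h | h
        · right; rw [h]
        · left; rw [h]; norm_num) _ (by simp) x]
    ring
  · have h1 : ∑ i ∈ Finset.range N, ∑ j, ind (symmDiff (A (2 * i)) ((S i).filter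
        (fun x => c i x ∈ Finset.univ.filter (fun l => ε i l = 1)))) j * v j k -
        (∑ i ∈ Finset.range (2 * N), ∑ j, ind (A i) j * v j k) / 2 =
        (∑ i ∈ Finset.range N, ∑ x, ε i (c i x) * (a i x * v x k)) / 2 := by
      rw [sum_even_odd, Finset.sum_div, Finset.sum_div, ← Finset.sum_sub_distrib]
      refine Finset.sum_congr rfl fun i _ => ?_
      rw [← Finset.sum_add_distrib, Finset.sum_div, Finset.sum_div, ← Finset.sum_sub_distrib]
      refine Finset.sum_congr rfl fun x _ => ?_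
      rw [ind_switch _ _ (c i) (ε i) (hε i) _ (by simp) x]
      simp only [ha]
      ring
    rw [h1, abs_div, abs_two]
    have := hεb k
    linarith
  · have h1 : ∑ i ∈ Finset.range N, ∑ j, ind (symmDiff (A (2 * i)) ((S i).filter
        (fun x => c i x ∈ Finset.univ.filter (fun l => -ε i l = 1)))) j * v j k -
        (∑ i ∈ Finset.range (2 * N), ∑ j, ind (A i) j * v j k) / 2 =
        -((∑ i ∈ Finset.range N, ∑ x, ε i (c i x) * (a i x * v x k)) / 2) := by
      rw [sum_even_odd, Finset.sum_div, Finset.sum_div, ← Finset.sum_sub_distrib,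
        ← Finset.sum_neg_distrib]
      refine Finset.sum_congr rfl fun i _ => ?_
      rw [← Finset.sum_add_distrib, Finset.sum_div, Finset.sum_div, ← Finset.sum_sub_distrib,
        ← Finset.sum_neg_distrib]
      refine Finset.sum_congr rfl fun x _ => ?_
      rw [ind_switch _ _ (c i) (fun l => -ε i l) (fun l => by
        rcases hε i l with h | h
        · right; rw [h]
        · left; rw [h]; norm_num) _ (by simp) x]
      simp only [ha]
      ring
    rw [h1, abs_neg, abs_div, abs_two]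
    have := hεb k
    linarith

/-- **Balancing.** -/
theorem balance {n d s : ℕ} {F : Set (Finset (Fin n))} (hF : Exchangeable s F)
    (v : Fin n → Fin d → ℝ) (hv : InBall v) (b : ℕ → ℝ)
    (hb : ∀ k, ∀ w : Fin (2 ^ k * n) → Fin d → ℝ, InBall w → HasSigning w (b k)) (m : ℕ) :
    ∀ (A : ℕ → Finset (Fin n)), (∀ i, A i ∈ F) →
    ∃ C : ℕ → Finset (Fin n), (∀ i, C i ∈ F) ∧
      (∀ x, ∑ i ∈ Finset.range (2 ^ m), ind (C i) x = ∑ i ∈ Finset.range (2 ^ m), ind (A i) x) ∧
      ∀ i < 2 ^ m, ∀ k, |∑ j, ind (C i) j * v j k -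
        (∑ i ∈ Finset.range (2 ^ m), ∑ j, ind (A i) j * v j k) / 2 ^ m| ≤
        s * ∑ l ∈ Finset.range m, b l / 2 ^ (l + 1) := by
  induction m with
  | zero =>
    intro A hA
    refine ⟨A, hA, fun x => rfl, fun i hi k => ?_⟩
    have : i = 0 := by simpa using hi
    subst this
    simp
  | succ m ih =>
    intro A hA
    obtain ⟨C, D, hC, hD, hCD, hC2, hD2⟩ := halve hF v hv (2 ^ m) (b m) (hb m) A hA
    obtain ⟨C', hC', hC'1, hC'2⟩ := ih C hC
    obtain ⟨D', hD', hD'1, hD'2⟩ := ih D hD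
    refine ⟨fun i => if i % 2 = 0 then C' (i / 2) else D' (i / 2), fun i => ?_, fun x => ?_,
      fun i hi k => ?_⟩
    · show (if i % 2 = 0 then C' (i / 2) else D' (i / 2)) ∈ F
      split_ifs
      · exact hC' _
      · exact hD' _
    · rw [pow_succ, mul_comm, sum_even_odd, sum_even_odd]
      have h1 : ∀ i, ind (if (2 * i) % 2 = 0 then C' ((2 * i) / 2) else D' ((2 * i) / 2)) x =
          ind (C' i) x := by
        intro i
        rw [if_pos (by omega)]
        congr 2
        omega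
      have h2 : ∀ i, ind (if (2 * i + 1) % 2 = 0 then C' ((2 * i + 1) / 2) else
          D' ((2 * i + 1) / 2)) x = ind (D' i) x := by
        intro i
        rw [if_neg (by omega)]
        congr 2
        omega
      simp_rw [h1, h2]
      rw [Finset.sum_add_distrib, hC'1, hD'1, ← Finset.sum_add_distrib]
      exact Finset.sum_congr rfl fun i _ => hCD i x
    · have hi2 : i / 2 < 2 ^ m := by
        rw [pow_succ] at hi
        omega
      have hpow : (0:ℝ) < 2 ^ m := by positivity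
      have key : ∀ X Y Z b' e : ℝ, |X - Y / 2 ^ m| ≤ e → |Y - Z / 2| ≤ s * b' / 2 →
          |X - Z / 2 ^ (m + 1)| ≤ e + s * (b' / 2 ^ (m + 1)) := by
        intro X Y Z b' e h1 h2
        have h3 : X - Z / 2 ^ (m + 1) = (X - Y / 2 ^ m) + (Y - Z / 2) / 2 ^ m := by
          rw [pow_succ]
          field_simp
          ring
        rw [h3]
        refine (abs_add_le _ _).trans (add_le_add h1 ?_)
        rw [abs_div, abs_of_pos hpow]
        calc |Y - Z / 2| / 2 ^ m ≤ (s * b' / 2) / 2 ^ m := by gcongr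
          _ = s * (b' / 2 ^ (m + 1)) := by rw [pow_succ]; field_simp
      rw [Finset.sum_range_succ, mul_add]
      have e1 : ∑ i ∈ Finset.range (2 ^ (m + 1)), ∑ j, ind (A i) j * v j k =
          ∑ i ∈ Finset.range (2 * 2 ^ m), ∑ j, ind (A i) j * v j k := by
        rw [pow_succ, mul_comm]
      rw [e1]
      rcases Nat.mod_two_eq_zero_or_one i with h | h
      · simp only [h, if_true]
        exact key _ _ _ _ _ (hC'2 _ hi2 k) (hC2 k)
      · simp only [h, one_ne_zero, if_false]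
        exact key _ _ _ _ _ (hD'2 _ hi2 k) (hD2 k)

end Pool.Agent.U515.KX
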