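import Pool.Agent.U515.KX.Core

/-!
# From dyadic averages to the convex hull
-/

set_option autoImplicit false

namespace Pool.Agent.U515.KX

theorem convex_of_midpoint {V : Type} [NormedAddCommGroup V] [NormedSpace ℝ V] {K : Set V}
    (hK : IsClosed K) (hm : ∀ x ∈ K, ∀ y ∈ K, (1 / 2 : ℝ) • (x + y) ∈ K) : Convex ℝ K := by
  intro x hx y hy a b ha hb hab
  set f : ℝ → V := fun t => (1 - t) • x + t • y with hf
  have hfc : Continuous f := by fun_prop
  set T : Set ℝ := f ⁻¹' K with hT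
  have hTc : IsClosed T := hK.preimage hfc
  have h0 : (0:ℝ) ∈ T := by simp [hT, hf, hx]
  have h1 : (1:ℝ) ∈ T := by simp [hT, hf, hy]
  have hmid : ∀ s ∈ T, ∀ t ∈ T, (s + t) / 2 ∈ T := by
    intro s hs t ht
    have h := hm _ hs _ ht
    have h2 : f ((s + t) / 2) = (1 / 2 : ℝ) • (f s + f t) := by
      simp only [hf]
      module
    show f ((s + t) / 2) ∈ K
    rw [h2]
    exact h
  have hbT : b ∈ T := by
    by_contra hbT
    have hb1 : b ≤ 1 := by linarith
    obtain ⟨s, hs, hs2⟩ := (isCompact_Icc (a := (0:ℝ)) (b := b)).inter_left hTc |>.exists_isGreatest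
      ⟨0, h0, ⟨le_refl _, hb⟩⟩
    obtain ⟨t, ht, ht2⟩ := (isCompact_Icc (a := b) (b := (1:ℝ))).inter_left hTc |>.exists_isLeast
      ⟨1, h1, ⟨hb1, le_refl _⟩⟩
    have hsb : s < b := lt_of_le_of_ne hs.2.2 (fun h => hbT (h ▸ hs.1))
    have hbt : b < t := lt_of_le_of_ne ht.2.1 (fun h => hbT (h ▸ ht.1))
    have hst := hmid s hs.1 t ht.1
    have hs0 := hs.2.1
    have ht1 := ht.2.2
    rcases le_total ((s + t) / 2) b with h | h
    · have := hs2 ⟨hst, ⟨by linarith, h⟩⟩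
      linarith
    · have := ht2 ⟨hst, ⟨h, by linarith⟩⟩
      linarith
  have h2 : a • x + b • y = f b := by
    simp only [hf]
    rw [show a = 1 - b by linarith]
  rw [h2]
  exact hbT

/-- The dyadic averages of indicators of members of `F`. -/
def Dyadic {n : ℕ} (F : Set (Finset (Fin n))) : Set (Fin n → ℝ) :=
  {x | ∃ (m : ℕ) (A : ℕ → Finset (Fin n)), (∀ i, A i ∈ F) ∧
    ∀ j, x j = (∑ i ∈ Finset.range (2 ^ m), ind (A i) j) / 2 ^ m}

theorem dyadic_lift {n : ℕ} (A : ℕ → Finset (Fin n)) (m p : ℕ) (j : Fin n) :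
    (∑ i ∈ Finset.range (2 ^ (m + p)), ind (A (i / 2 ^ p)) j) / 2 ^ (m + p) =
      (∑ i ∈ Finset.range (2 ^ m), ind (A i) j) / 2 ^ m := by
  induction p with
  | zero => simp
  | succ p ih =>
    rw [← ih]
    have h1 : ∑ i ∈ Finset.range (2 ^ (m + (p + 1))), ind (A (i / 2 ^ (p + 1))) j =
        2 * ∑ i ∈ Finset.range (2 ^ (m + p)), ind (A (i / 2 ^ p)) j := by
      rw [← add_assoc, pow_succ, mul_comm, sum_even_odd, Finset.mul_sum]
      refine Finset.sum_congr rfl fun i _ => ?_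
      have e1 : (2 * i) / 2 ^ (p + 1) = i / 2 ^ p := by
        rw [pow_succ', Nat.mul_div_mul_left _ _ (by norm_num)]
      have e2 : (2 * i + 1) / 2 ^ (p + 1) = i / 2 ^ p := by
        rw [pow_succ', ← Nat.div_div_eq_div_mul]
        congr 1
        omega
      rw [e1, e2]
      ring
    rw [h1, ← add_assoc, pow_succ]
    field_simp

theorem dyadic_mid {n : ℕ} (F : Set (Finset (Fin n))) (x y : Fin n → ℝ) (hx : x ∈ Dyadic F)
    (hy : y ∈ Dyadic F) : (1 / 2 : ℝ) • (x + y) ∈ Dyadic F := by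
  obtain ⟨m, A, hA, hxA⟩ := hx
  obtain ⟨p, B, hB, hyB⟩ := hy
  refine ⟨m + p + 1, fun i => if i % 2 = 0 then A (i / 2 / 2 ^ p) else B (i / 2 / 2 ^ m),
    fun i => ?_, fun j => ?_⟩
  · show (if i % 2 = 0 then A (i / 2 / 2 ^ p) else B (i / 2 / 2 ^ m)) ∈ F
    split_ifs
    · exact hA _
    · exact hB _
  · rw [pow_succ (2:ℕ), mul_comm _ 2, sum_even_odd]
    have h1 : ∀ i, ind (if (2 * i) % 2 = 0 then A ((2 * i) / 2 / 2 ^ p) else
        B ((2 * i) / 2 / 2 ^ m)) j = ind (A (i / 2 ^ p)) j := by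
      intro i
      rw [if_pos (by omega), Nat.mul_div_cancel_left _ (by norm_num)]
    have h2 : ∀ i, ind (if (2 * i + 1) % 2 = 0 then A ((2 * i + 1) / 2 / 2 ^ p) else
        B ((2 * i + 1) / 2 / 2 ^ m)) j = ind (B (i / 2 ^ m)) j := by
      intro i
      rw [if_neg (by omega), show (2 * i + 1) / 2 = i by omega]
    simp_rw [h1, h2]
    rw [Finset.sum_add_distrib]
    have h3 := dyadic_lift A m p j
    have h4 := dyadic_lift B p m j
    rw [add_comm p m] at h4
    rw [Pi.smul_apply, Pi.add_apply, hxA j, hyB j, ← h3, ← h4, pow_succ]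
    simp only [smul_eq_mul]
    field_simp

theorem hull_subset {n : ℕ} (F : Set (Finset (Fin n))) :
    convexHull ℝ (ind '' F) ⊆ closure (Dyadic F) := by
  refine convexHull_min ?_ (convex_of_midpoint isClosed_closure ?_)
  · rintro _ ⟨A, hA, rfl⟩
    exact subset_closure ⟨0, fun _ => A, fun _ => hA, fun j => by simp⟩
  · intro x hx y hy
    have hc : Continuous (fun p : (Fin n → ℝ) × (Fin n → ℝ) => (1 / 2 : ℝ) • (p.1 + p.2)) := by
      fun_prop
    exact map_mem_closure₂ (f := fun x y => (1 / 2 : ℝ) • (x + y)) hc hx hy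
      (fun a ha b hb => dyadic_mid F a b ha hb)

/-- **Rounding a point of the hull.** -/
theorem round_hull {n d s : ℕ} {F : Set (Finset (Fin n))} (hF : Exchangeable s F)
    (v : Fin n → Fin d → ℝ) (hv : InBall v) (b : ℕ → ℝ)
    (hb : ∀ k, ∀ w : Fin (2 ^ k * n) → Fin d → ℝ, InBall w → HasSigning w (b k)) (R : ℝ)
    (hR : 0 < d → ∀ m, s * ∑ l ∈ Finset.range m, b l / 2 ^ (l + 1) ≤ R)
    (x : Fin n → ℝ) (hx : x ∈ convexHull ℝ (ind '' F)) :
    ∃ A ∈ F, ∀ k, |∑ j ∈ A, v j k - ∑ j, x j * v j k| ≤ R := by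
  have hclosed : IsClosed {x : Fin n → ℝ | ∃ A ∈ F, ∀ k,
      |∑ j ∈ A, v j k - ∑ j, x j * v j k| ≤ R} := by
    have h1 : {x : Fin n → ℝ | ∃ A ∈ F, ∀ k, |∑ j ∈ A, v j k - ∑ j, x j * v j k| ≤ R} =
        ⋃ A ∈ F, ⋂ k, {x : Fin n → ℝ | |∑ j ∈ A, v j k - ∑ j, x j * v j k| ≤ R} := by
      ext x
      simp
    rw [h1]
    refine Set.Finite.isClosed_biUnion (Set.toFinite F) fun A _ => isClosed_iInter fun k => ?_
    exact isClosed_le (by fun_prop) continuous_const
  have hsub : Dyadic F ⊆ {x : Fin n → ℝ | ∃ A ∈ F, ∀ k,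
      |∑ j ∈ A, v j k - ∑ j, x j * v j k| ≤ R} := by
    rintro x ⟨m, A, hA, hxA⟩
    obtain ⟨C, hC, hC1, hC2⟩ := balance hF v hv b hb m A hA
    refine ⟨C 0, hC 0, fun k => ?_⟩
    have h := (hC2 0 (by positivity) k).trans (hR (Fin.pos k) m)
    have e1 : ∑ j ∈ C 0, v j k = ∑ j, ind (C 0) j * v j k := by
      simp [ind, Finset.sum_ite_mem]
    have e2 : ∑ j, x j * v j k =
        (∑ i ∈ Finset.range (2 ^ m), ∑ j, ind (A i) j * v j k) / 2 ^ m := by
      rw [Finset.sum_comm, Finset.sum_div]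
      refine Finset.sum_congr rfl fun j _ => ?_
      rw [hxA j, ← Finset.sum_mul]
      ring
    rw [e1, e2]
    exact h
  exact closure_minimal hsub hclosed (hull_subset F hx)

end Pool.Agent.U515.KX
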